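import Pool.Agent.H89.FC.TargetsN

/-!
# The fourth moment of the complete family, row NDV: the coefficients are small
-/

set_option autoImplicit false

open MeasureTheory Set Filter NumberField
open scoped Real nonZeroDivisors

namespace Pool.Agent.H3.FC

open Pool.Agent.H31.CN Pool.Agent.H89.FM Pool.Agent.H61.FM Pool.Agent.H89.FC

/-- **Row NDV.** -/
theorem pf_DVBc (hDVB : T_DVB) : T_DVBc := by
  intro ε hε
  obtain ⟨C, hC, H⟩ := hDVB ε hε
  refine ⟨C, hC, ?_⟩
  intro K _ _ σ D f m ψ hK hψ n hn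
  have h1 := H K D hK 1 n hn
  have h2 : lm (1 : CC K) n = ((Nn K n).card : ℂ) := by
    unfold lm
    have h4 : ∀ I ∈ Nn K n, pv (1 : CC K) I = 1 := by
      intro I _
      unfold pv
      rw [MonoidHom.one_apply, Units.val_one]
    rw [Finset.sum_congr rfl h4, Finset.sum_const, nsmul_eq_mul, mul_one]
  have h3 : ‖lc ψ n‖ ≤ ((Nn K n).card : ℝ) := by
    refine (norm_sum_le _ _).trans ?_
    refine (Finset.sum_le_card_nsmul _ _ 1 ?_).trans (by simp)
    intro I _
    by_cases h : Pool.Agent.H95.CF.Pr K f I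
    · rw [hψ.abs I h]
    · rw [hψ.van I h]
      simp
  rw [h2] at h1
  refine h3.trans ?_
  refine le_trans (le_of_eq ?_) h1
  simp

end Pool.Agent.H3.FC
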